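import Pool.Agent.Run7.h143.OM.D2
import Pool.Agent.Run7.h992.OM.K1

/-!
# Project OM, piece D: smoothness of `K s u` and its Laplacian
-/

set_option autoImplicit false

open UpperHalfPlane hiding I
open MeasureTheory Complex Filter Topology

namespace Run7.h143.OM

open Run7.h992.OM

/-- `(4 η) ^ s u` -/
noncomputable def cu (s : ℕ) (u : ℍ → ℂ) (w : ℍ) : ℂ := (((4 * w.im) ^ s : ℝ) : ℂ) * u w

theorem k_eq (s : ℕ) {z : ℂ} (hz : 0 < z.im) (w : ℍ) :
    k s (ofComplex z) w = z.im ^ s * ((nn z w)⁻¹ ^ s * (4 * w.im) ^ s) := by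
  have h1 : ((ofComplex z : ℍ) : ℂ) = z := by
    rw [ofComplex_apply_of_im_pos hz]
  have h2 : (ofComplex z : ℍ).im = z.im := by
    rw [← coe_im, h1]
  rw [k_formula, h1, h2, ← nn_eq, ← mul_pow, ← mul_pow]
  congr 1
  field_simp

theorem k_mul_eq (s : ℕ) {z : ℂ} (hz : 0 < z.im) (u : ℍ → ℂ) (w : ℍ) :
    (k s (ofComplex z) w : ℂ) * u w = (z.im : ℂ) ^ s * ff s (cu s u) z w := by
  rw [k_eq s hz]
  unfold ff cu
  push_cast
  ring

theorem good_cu {s : ℕ} (hs : 2 ≤ s) {u : ℍ → ℂ} (hm : Measurable u) (hb : Bd u) :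
    Good s (cu s u) := by
  have hc : AEStronglyMeasurable (cu s u) volume := by
    have h1 : Continuous fun w : ℍ => (((4 * w.im) ^ s : ℝ) : ℂ) :=
      Complex.continuous_ofReal.comp ((continuous_const.mul cont_im).pow s)
    exact h1.aestronglyMeasurable.mul hm.aestronglyMeasurable
  refine ⟨hc, fun z hz => ?_⟩
  obtain ⟨C, hC⟩ := hb
  have hi := (k_int hs (ofComplex z)).const_mul ((z.im ^ s)⁻¹ * C)
  refine hi.mono' (meas_ff hc hz) (Filter.Eventually.of_forall fun w => ?_)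
  rw [norm_ff _ _ hz, k_eq s hz, cu, norm_mul, Complex.norm_real,
    Real.norm_of_nonneg (by have := w.im_pos; positivity)]
  have hn := nn_pos hz w
  have hw := w.im_pos
  have h1 : 0 ≤ (nn z w)⁻¹ ^ s * (4 * w.im) ^ s := by positivity
  have h2 : z.im ^ s ≠ 0 := by positivity
  calc (nn z w)⁻¹ ^ s * ((4 * w.im) ^ s * ‖u w‖) = ((nn z w)⁻¹ ^ s * (4 * w.im) ^ s) * ‖u w‖ := by
        ring
    _ ≤ ((nn z w)⁻¹ ^ s * (4 * w.im) ^ s) * C := mul_le_mul_of_nonneg_left (hC w) h1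
    _ = _ := by field_simp

theorem K_eq (s : ℕ) (u : ℍ → ℂ) {z : ℂ} (hz : 0 < z.im) :
    K s u (ofComplex z) = (z.im : ℂ) ^ s * V s (cu s u) z := by
  unfold K V
  rw [← integral_const_mul]
  exact integral_congr_ae (Filter.Eventually.of_forall fun w => k_mul_eq s hz u w)

theorem K_smooth {s : ℕ} (hs : 2 ≤ s) {u : ℍ → ℂ} (hm : Measurable u) (hb : Bd u) :
    ContDiffOn ℝ 2 (fun z : ℂ => K s u (ofComplex z)) {z : ℂ | 0 < z.im} := by
  have h1 : ContDiffOn ℝ 2 (fun z : ℂ => (z.im : ℂ) ^ s * V s (cu s u) z) {z : ℂ | 0 < z.im} := by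
    have r2 : ContDiffOn ℝ 2 (fun z : ℂ => (z.im : ℂ)) {z : ℂ | 0 < z.im} :=
      (ofRealCLM.contDiff.comp imCLM.contDiff).contDiffOn
    exact (r2.pow s).mul (contDiffOn_V 2 (good_cu hs hm hb))
  exact h1.congr fun z hz => K_eq s u hz

theorem V_cu_succ (s : ℕ) (u : ℍ → ℂ) (z : ℂ) :
    V (s + 1) (cu (s + 1) u) z = 4 * V (s + 1) (yc (cu s u)) z := by
  unfold V
  rw [← integral_const_mul]
  refine integral_congr_ae (Filter.Eventually.of_forall fun w => ?_)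
  simp only [ff, cu, yc]
  push_cast
  ring

theorem K_lapl {s : ℕ} (hs : 2 ≤ s) {u : ℍ → ℂ} (hm : Measurable u) (hb : Bd u) (z : ℂ)
    (hz : 0 < z.im) :
    (z.im : ℂ) ^ 2 * lapl (fun z : ℂ => K s u (ofComplex z)) z =
      s * (s - 1) * K s u (ofComplex z) - s ^ 2 * K (s + 1) u (ofComplex z) := by
  obtain ⟨s, rfl⟩ : ∃ r, s = r + 2 := ⟨s - 2, by omega⟩
  have hg := good_cu hs hm hb
  have e1 : (fun t : ℝ => K (s + 2) u (ofComplex (z + (t : ℂ)))) =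
      fun t : ℝ => (((z + t).im : ℝ) : ℂ) ^ (s + 2) * V (s + 2) (cu (s + 2) u) (z + t) := by
    funext t
    exact K_eq _ u (by simpa using hz)
  have hn : ∀ᶠ t : ℝ in 𝓝 0, 0 < z.im + t := by
    have : Continuous fun t : ℝ => z.im + t := by fun_prop
    exact (this.tendsto' 0 (z.im) (by simp)).eventually_const_lt hz
  have e2 : (fun t : ℝ => K (s + 2) u (ofComplex (z + (t : ℂ) * I))) =ᶠ[𝓝 0]
      fun t : ℝ => (((z + t * I).im : ℝ) : ℂ) ^ (s + 2) * V (s + 2) (cu (s + 2) u) (z + t * I) := by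
    filter_upwards [hn] with t ht
    exact K_eq _ u (by simpa using ht)
  have d1 := dx_U hg hz
  have d2 := dy_U hg hz
  have hl : lapl (fun z : ℂ => K (s + 2) u (ofComplex z)) z =
      (z.im : ℂ) ^ (s + 2) * Vxx (s + 2) (cu (s + 2) u) z +
      ((s + 2) * (s + 1) * (z.im : ℂ) ^ s * V (s + 2) (cu (s + 2) u) z +
      2 * (s + 2) * (z.im : ℂ) ^ (s + 1) * Vy (s + 2) (cu (s + 2) u) z +
      (z.im : ℂ) ^ (s + 2) * Vyy (s + 2) (cu (s + 2) u) z) := by
    unfold lapl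
    rw [← d1, ← d2, e1]
    congr 1
    exact e2.deriv.deriv_eq
  rw [hl, K_eq (s + 2) u hz, K_eq (s + 2 + 1) u hz, V_cu_succ (s + 2) u z]
  have hL := lapl_V hg hz
  have hy : Vy (s + 2) (cu (s + 2) u) z = -(2 * ((s + 2 : ℕ) : ℂ)) *
      (z.im * V (s + 2 + 1) (cu (s + 2) u) z + V (s + 2 + 1) (yc (cu (s + 2) u)) z) := rfl
  rw [hy]
  push_cast at hL ⊢
  linear_combination ((z.im : ℂ) ^ (s + 4)) * hL

end Run7.h143.OM
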