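import Pool.Agent.Run7.h992.OM.Defs

/-!
# Project OM, piece D: differentiation of `z ↦ ∫ |z - conj w|^(-2 s) c w dμ(w)`
-/

set_option autoImplicit false

open UpperHalfPlane MeasureTheory Complex Filter Topology

namespace Run7.h143.OM

/-- `|z - conj w| ^ 2` -/
def nn (z : ℂ) (w : ℍ) : ℝ := (z.re - w.re) ^ 2 + (z.im + w.im) ^ 2

theorem nn_pos {z : ℂ} (hz : 0 < z.im) (w : ℍ) : 0 < nn z w := by
  have := w.im_pos
  unfold nn
  positivity

theorem nn_eq (z : ℂ) (w : ℍ) : nn z w = ‖z - (starRingEnd ℂ) (w : ℂ)‖ ^ 2 := by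
  rw [Complex.sq_norm, Complex.normSq_apply]
  simp [nn]
  ring

/-- the integrand -/
noncomputable def ff (s : ℕ) (c : ℍ → ℂ) (z : ℂ) (w : ℍ) : ℂ := (((nn z w)⁻¹ ^ s : ℝ) : ℂ) * c w

/-- the integral -/
noncomputable def V (s : ℕ) (c : ℍ → ℂ) (z : ℂ) : ℂ := ∫ w, ff s c z w

/-- the functions for which everything converges -/
structure Good (s : ℕ) (c : ℍ → ℂ) : Prop where
  meas : AEStronglyMeasurable c (volume : Measure ℍ)
  int : ∀ z : ℂ, 0 < z.im → Integrable (ff s c z)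

theorem cont_re : Continuous fun w : ℍ => w.re := Complex.continuous_re.comp continuous_coe
theorem cont_im : Continuous fun w : ℍ => w.im := Complex.continuous_im.comp continuous_coe

theorem cont_nn (z : ℂ) : Continuous (nn z) := by
  unfold nn
  have := cont_re
  have := cont_im
  fun_prop

theorem cont_pow {z : ℂ} (hz : 0 < z.im) (s : ℕ) :
    Continuous fun w => (((nn z w)⁻¹ ^ s : ℝ) : ℂ) := by
  have h := (cont_nn z).inv₀ (fun w => (nn_pos hz w).ne')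
  exact Complex.continuous_ofReal.comp (h.pow s)

theorem meas_ff {s : ℕ} {c : ℍ → ℂ} (hc : AEStronglyMeasurable c (volume : Measure ℍ)) {z : ℂ}
    (hz : 0 < z.im) : AEStronglyMeasurable (ff s c z) (volume : Measure ℍ) :=
  (cont_pow hz s).aestronglyMeasurable.mul hc

/-- `|x - ξ| / N ≤ 1 / y` -/
theorem a_le {z : ℂ} (hz : 0 < z.im) (w : ℍ) : |z.re - w.re| * (nn z w)⁻¹ ≤ z.im⁻¹ := by
  have hw := w.im_pos
  have hn := nn_pos hz w
  rw [← div_eq_mul_inv, div_le_iff₀ hn, inv_mul_eq_div, le_div_iff₀ hz]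
  unfold nn
  have h1 : |z.re - w.re| ^ 2 = (z.re - w.re) ^ 2 := sq_abs _
  nlinarith [sq_nonneg (|z.re - w.re| - z.im), abs_nonneg (z.re - w.re), mul_pos hz hw]

theorem b_le {z : ℂ} (hz : 0 < z.im) (w : ℍ) : (z.im + w.im) * (nn z w)⁻¹ ≤ z.im⁻¹ := by
  have hw := w.im_pos
  have hn := nn_pos hz w
  rw [← div_eq_mul_inv, div_le_iff₀ hn, inv_mul_eq_div, le_div_iff₀ hz]
  unfold nn
  nlinarith [sq_nonneg (z.re - w.re), mul_pos hz hw, sq_nonneg w.im]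

/-- comparison of nearby points -/
theorem nn_near {z z₀ : ℂ} (hz₀ : 0 < z₀.im) (h : ‖z - z₀‖ ≤ z₀.im / 2) (w : ℍ) :
    nn z₀ w ≤ 4 * nn z w := by
  rw [nn_eq, nn_eq]
  have hw := w.im_pos
  have h1 : z₀.im ≤ ‖z₀ - (starRingEnd ℂ) (w : ℂ)‖ := by
    refine le_trans ?_ (Complex.abs_im_le_norm _)
    refine le_trans ?_ (le_abs_self _)
    simp
    exact hw.le
  have h2 : ‖z₀ - (starRingEnd ℂ) (w : ℂ)‖ ≤ ‖z - (starRingEnd ℂ) (w : ℂ)‖ + ‖z - z₀‖ := by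
    have : z₀ - (starRingEnd ℂ) (w : ℂ) = (z - (starRingEnd ℂ) (w : ℂ)) - (z - z₀) := by ring
    rw [this]
    exact norm_sub_le _ _
  have h3 : ‖z₀ - (starRingEnd ℂ) (w : ℂ)‖ ≤ 2 * ‖z - (starRingEnd ℂ) (w : ℂ)‖ := by linarith
  have h4 := norm_nonneg (z₀ - (starRingEnd ℂ) (w : ℂ))
  nlinarith

theorem im_near {z z₀ : ℂ} (hz₀ : 0 < z₀.im) (h : ‖z - z₀‖ ≤ z₀.im / 2) : z₀.im / 2 ≤ z.im := by
  have h1 := (Complex.abs_im_le_norm (z - z₀)).trans h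
  rw [Complex.sub_im, abs_le] at h1
  linarith [h1.1]

theorem norm_ff (s : ℕ) (c : ℍ → ℂ) {z : ℂ} (hz : 0 < z.im) (w : ℍ) :
    ‖ff s c z w‖ = (nn z w)⁻¹ ^ s * ‖c w‖ := by
  have hn := nn_pos hz w
  rw [ff, norm_mul, Complex.norm_real, Real.norm_of_nonneg (by positivity)]

theorem ff_near (s : ℕ) (c : ℍ → ℂ) {z z₀ : ℂ} (hz₀ : 0 < z₀.im) (h : ‖z - z₀‖ ≤ z₀.im / 2)
    (w : ℍ) : ‖ff s c z w‖ ≤ 4 ^ s * ‖ff s c z₀ w‖ := by
  have hz : 0 < z.im := by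
    have := im_near hz₀ h
    linarith
  rw [norm_ff s c hz, norm_ff s c hz₀, ← mul_assoc]
  refine mul_le_mul_of_nonneg_right ?_ (norm_nonneg _)
  rw [← mul_pow]
  have h1 := nn_pos hz w
  have h2 := nn_pos hz₀ w
  have h3 := nn_near hz₀ h w
  refine pow_le_pow_left₀ (by positivity) ?_ s
  rw [← div_eq_mul_inv, le_div_iff₀ h2, inv_mul_le_iff₀ h1]
  linarith

/-! ## closure properties -/

theorem Good.succ {s : ℕ} {c : ℍ → ℂ} (h : Good s c) : Good (s + 1) c := by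
  refine ⟨h.meas, fun z hz => ?_⟩
  refine ((h.int z hz).norm.const_mul ((z.im ^ 2)⁻¹)).mono' (meas_ff h.meas hz)
    (Filter.Eventually.of_forall fun w => ?_)
  rw [norm_ff _ _ hz, norm_ff _ _ hz, pow_succ]
  have hn := nn_pos hz w
  have h1 : (nn z w)⁻¹ ≤ (z.im ^ 2)⁻¹ := by
    refine inv_anti₀ (by positivity) ?_
    have := w.im_pos
    unfold nn
    nlinarith [sq_nonneg (z.re - w.re), mul_pos hz this, sq_nonneg w.im]
  calc (nn z w)⁻¹ ^ s * (nn z w)⁻¹ * ‖c w‖ = (nn z w)⁻¹ * ((nn z w)⁻¹ ^ s * ‖c w‖) := by ring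
    _ ≤ (z.im ^ 2)⁻¹ * ((nn z w)⁻¹ ^ s * ‖c w‖) := by
      refine mul_le_mul_of_nonneg_right h1 (by positivity)

theorem Good.im {s : ℕ} {c : ℍ → ℂ} (h : Good s c) : Good (s + 1) (fun w => (w.im : ℂ) * c w) := by
  have hm : AEStronglyMeasurable (fun w : ℍ => (w.im : ℂ) * c w) volume :=
    (Complex.continuous_ofReal.comp cont_im).aestronglyMeasurable.mul h.meas
  refine ⟨hm, fun z hz => ?_⟩
  refine ((h.int z hz).norm.const_mul (z.im⁻¹)).mono' (meas_ff hm hz)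
    (Filter.Eventually.of_forall fun w => ?_)
  have hw := w.im_pos
  rw [norm_ff _ _ hz, norm_ff _ _ hz, pow_succ, norm_mul, Complex.norm_real,
    Real.norm_of_nonneg hw.le]
  have hn := nn_pos hz w
  have h1 : w.im * (nn z w)⁻¹ ≤ z.im⁻¹ := by
    refine le_trans (mul_le_mul_of_nonneg_right ?_ (by positivity)) (b_le hz w)
    linarith
  calc (nn z w)⁻¹ ^ s * (nn z w)⁻¹ * (w.im * ‖c w‖) =
      (w.im * (nn z w)⁻¹) * ((nn z w)⁻¹ ^ s * ‖c w‖) := by ring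
    _ ≤ z.im⁻¹ * ((nn z w)⁻¹ ^ s * ‖c w‖) := mul_le_mul_of_nonneg_right h1 (by positivity)

theorem Good.re {s : ℕ} {c : ℍ → ℂ} (h : Good s c) : Good (s + 1) (fun w => (w.re : ℂ) * c w) := by
  have hm : AEStronglyMeasurable (fun w : ℍ => (w.re : ℂ) * c w) volume :=
    (Complex.continuous_ofReal.comp cont_re).aestronglyMeasurable.mul h.meas
  refine ⟨hm, fun z hz => ?_⟩
  refine ((h.int z hz).norm.const_mul (z.im⁻¹ + |z.re| * (z.im ^ 2)⁻¹)).mono' (meas_ff hm hz)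
    (Filter.Eventually.of_forall fun w => ?_)
  have hw := w.im_pos
  rw [norm_ff _ _ hz, norm_ff _ _ hz, pow_succ, norm_mul, Complex.norm_real, Real.norm_eq_abs]
  have hn := nn_pos hz w
  have h0 : (nn z w)⁻¹ ≤ (z.im ^ 2)⁻¹ := by
    refine inv_anti₀ (by positivity) ?_
    unfold nn
    nlinarith [sq_nonneg (z.re - w.re), mul_pos hz hw, sq_nonneg w.im]
  have h1 : |w.re| * (nn z w)⁻¹ ≤ z.im⁻¹ + |z.re| * (z.im ^ 2)⁻¹ := by
    have h2 : |w.re| ≤ |z.re - w.re| + |z.re| := by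
      have : w.re = z.re - (z.re - w.re) := by ring
      calc |w.re| = |z.re - (z.re - w.re)| := by rw [← this]
        _ ≤ |z.re| + |z.re - w.re| := abs_sub _ _
        _ = _ := add_comm _ _
    calc |w.re| * (nn z w)⁻¹ ≤ (|z.re - w.re| + |z.re|) * (nn z w)⁻¹ :=
          mul_le_mul_of_nonneg_right h2 (by positivity)
      _ = |z.re - w.re| * (nn z w)⁻¹ + |z.re| * (nn z w)⁻¹ := by ring
      _ ≤ _ := add_le_add (a_le hz w) (mul_le_mul_of_nonneg_left h0 (abs_nonneg _))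
  calc (nn z w)⁻¹ ^ s * (nn z w)⁻¹ * (|w.re| * ‖c w‖) =
      (|w.re| * (nn z w)⁻¹) * ((nn z w)⁻¹ ^ s * ‖c w‖) := by ring
    _ ≤ _ := mul_le_mul_of_nonneg_right h1 (by positivity)

end Run7.h143.OM
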