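import Pool.Agent.Run7.h143.OM.D0

/-!
# Project OM, piece D: the derivative
-/

set_option autoImplicit false

open UpperHalfPlane MeasureTheory Complex Filter Topology

namespace Run7.h143.OM

/-- `ξ c` -/
noncomputable def xc (c : ℍ → ℂ) (w : ℍ) : ℂ := (w.re : ℂ) * c w
/-- `η c` -/
noncomputable def yc (c : ℍ → ℂ) (w : ℍ) : ℂ := (w.im : ℂ) * c w

theorem Good.xc {s : ℕ} {c : ℍ → ℂ} (h : Good s c) : Good (s + 1) (xc c) := h.re
theorem Good.yc {s : ℕ} {c : ℍ → ℂ} (h : Good s c) : Good (s + 1) (yc c) := h.im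

theorem hasDerivAt_invpow (s : ℕ) {x : ℝ} (hx : x ≠ 0) :
    HasDerivAt (fun t : ℝ => t⁻¹ ^ s) (-(s * x⁻¹ ^ (s + 1))) x := by
  have h := (hasDerivAt_inv hx).pow s
  refine h.congr_deriv ?_
  rcases s with _ | s
  · simp
  · simp only [Nat.add_sub_cancel, inv_pow]
    push_cast
    field_simp
    ring

/-- derivative of `nn` -/
noncomputable def lin (z : ℂ) (w : ℍ) : ℂ →L[ℝ] ℝ :=
  (2 * (z.re - w.re)) • reCLM + (2 * (z.im + w.im)) • imCLM

theorem hasFDerivAt_nn (z : ℂ) (w : ℍ) : HasFDerivAt (fun z => nn z w) (lin z w) z := by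
  have h1 : HasFDerivAt (fun z : ℂ => z.re - w.re) reCLM z := reCLM.hasFDerivAt.sub_const _
  have h2 : HasFDerivAt (fun z : ℂ => z.im + w.im) imCLM z := imCLM.hasFDerivAt.add_const _
  have h := (h1.pow 2).add (h2.pow 2)
  refine h.congr_fderiv ?_
  ext h
  simp [lin]
  left
  ring

/-- derivative of the integrand -/
noncomputable def ff' (s : ℕ) (c : ℍ → ℂ) (z : ℂ) (w : ℍ) : ℂ →L[ℝ] ℂ :=
  ((-(s * (nn z w)⁻¹ ^ (s + 1))) • lin z w).smulRight (c w)

theorem hasFDerivAt_ff (s : ℕ) (c : ℍ → ℂ) {z : ℂ} (hz : 0 < z.im) (w : ℍ) :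
    HasFDerivAt (fun z => ff s c z w) (ff' s c z w) z := by
  have h := ((hasDerivAt_invpow s (nn_pos hz w).ne').comp_hasFDerivAt z
    (hasFDerivAt_nn z w)).smul_const (c w)
  refine h.congr_of_eventuallyEq (Filter.Eventually.of_forall fun z => ?_)
  simp [ff, Complex.real_smul]

theorem ff'_apply (s : ℕ) (c : ℍ → ℂ) (z : ℂ) (w : ℍ) (h : ℂ) :
    ff' s c z w h = -(2 * s) * (h.re * (z.re * ff (s + 1) c z w - ff (s + 1) (xc c) z w) +
      h.im * (z.im * ff (s + 1) c z w + ff (s + 1) (yc c) z w)) := by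
  simp only [ff', lin, ff, xc, yc, ContinuousLinearMap.smulRight_apply,
    _root_.smul_apply, _root_.add_apply, reCLM_apply, imCLM_apply,
    smul_eq_mul, Complex.real_smul]
  push_cast
  ring

theorem norm_ff' (s : ℕ) (c : ℍ → ℂ) {z : ℂ} (hz : 0 < z.im) (w : ℍ) :
    ‖ff' s c z w‖ ≤ 4 * s * z.im⁻¹ * ‖ff s c z w‖ := by
  have hn := nn_pos hz w
  have hw := w.im_pos
  rw [ff', ContinuousLinearMap.norm_smulRight_apply, norm_smul, norm_neg, norm_ff s c hz,
    Real.norm_of_nonneg (by positivity)]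
  have h1 : ‖lin z w‖ ≤ 2 * |z.re - w.re| + 2 * (z.im + w.im) := by
    refine (norm_add_le _ _).trans (add_le_add ?_ ?_)
    · rw [norm_smul, norm_mul, Real.norm_eq_abs, Real.norm_eq_abs]
      have : ‖reCLM‖ = 1 := reCLM_norm
      rw [this]; simp
    · rw [norm_smul, norm_mul, Real.norm_eq_abs, Real.norm_eq_abs]
      have : ‖imCLM‖ = 1 := imCLM_norm
      rw [this, abs_of_pos (show 0 < z.im + w.im by linarith)]; simp
  have h2 : ‖lin z w‖ * (nn z w)⁻¹ ≤ 4 * z.im⁻¹ := by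
    calc ‖lin z w‖ * (nn z w)⁻¹ ≤ (2 * |z.re - w.re| + 2 * (z.im + w.im)) * (nn z w)⁻¹ :=
          mul_le_mul_of_nonneg_right h1 (by positivity)
      _ = 2 * (|z.re - w.re| * (nn z w)⁻¹) + 2 * ((z.im + w.im) * (nn z w)⁻¹) := by ring
      _ ≤ 2 * z.im⁻¹ + 2 * z.im⁻¹ := by
        have := a_le hz w
        have := b_le hz w
        linarith
      _ = _ := by ring
  calc (s : ℝ) * (nn z w)⁻¹ ^ (s + 1) * ‖lin z w‖ * ‖c w‖ =
      (‖lin z w‖ * (nn z w)⁻¹) * (s * ((nn z w)⁻¹ ^ s * ‖c w‖)) := by ring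
    _ ≤ (4 * z.im⁻¹) * (s * ((nn z w)⁻¹ ^ s * ‖c w‖)) :=
      mul_le_mul_of_nonneg_right h2 (by positivity)
    _ = _ := by ring

/-- derivative of `V s c` -/
noncomputable def dV (s : ℕ) (c : ℍ → ℂ) (z : ℂ) : ℂ →L[ℝ] ℂ :=
  reCLM.smulRight (-(2 * s) * (z.re * V (s + 1) c z - V (s + 1) (xc c) z)) +
    imCLM.smulRight (-(2 * s) * (z.im * V (s + 1) c z + V (s + 1) (yc c) z))

theorem cont_lin (z : ℂ) : Continuous (lin z) := by
  unfold lin
  have := cont_re
  have := cont_im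
  fun_prop

theorem meas_ff' {s : ℕ} {c : ℍ → ℂ} (hc : AEStronglyMeasurable c (volume : Measure ℍ)) {z : ℂ}
    (hz : 0 < z.im) : AEStronglyMeasurable (ff' s c z) (volume : Measure ℍ) := by
  have h1 : Continuous fun w => (-(s * (nn z w)⁻¹ ^ (s + 1))) • lin z w := by
    have h := (cont_nn z).inv₀ (fun w => (nn_pos hz w).ne')
    have := cont_lin z
    exact ((continuous_const.mul (h.pow _)).neg).smul this
  have h2 := (ContinuousLinearMap.smulRightL ℝ ℂ ℂ).continuous₂.comp_aestronglyMeasurable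
    (h1.aestronglyMeasurable.prodMk hc)
  exact h2

theorem int_ff' {s : ℕ} {c : ℍ → ℂ} (h : Good s c) {z : ℂ} (hz : 0 < z.im) :
    Integrable (ff' s c z) := by
  refine ((h.int z hz).norm.const_mul (4 * s * z.im⁻¹)).mono' (meas_ff' h.meas hz)
    (Filter.Eventually.of_forall fun w => norm_ff' s c hz w)

theorem integral_ff' {s : ℕ} {c : ℍ → ℂ} (h : Good s c) {z : ℂ} (hz : 0 < z.im) :
    ∫ w, ff' s c z w = dV s c z := by
  ext1 v
  rw [ContinuousLinearMap.integral_apply (int_ff' h hz)]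
  simp only [ff'_apply]
  have i1 := h.succ.int z hz
  have i2 := h.xc.int z hz
  have i3 := h.yc.int z hz
  have e1 : ∫ w, ((z.re : ℂ) * ff (s + 1) c z w - ff (s + 1) (xc c) z w) =
      z.re * V (s + 1) c z - V (s + 1) (xc c) z := by
    rw [integral_sub (i1.const_mul _) i2, integral_const_mul]
    rfl
  have e2 : ∫ w, ((z.im : ℂ) * ff (s + 1) c z w + ff (s + 1) (yc c) z w) =
      z.im * V (s + 1) c z + V (s + 1) (yc c) z := by
    rw [integral_add (i1.const_mul _) i3, integral_const_mul]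
    rfl
  rw [integral_const_mul, integral_add, integral_const_mul, integral_const_mul, e1, e2]
  · simp only [dV, _root_.add_apply, ContinuousLinearMap.smulRight_apply,
      reCLM_apply, imCLM_apply, Complex.real_smul]
    ring
  · exact ((i1.const_mul _).sub i2).const_mul _
  · exact ((i1.const_mul _).add i3).const_mul _

theorem hasFDerivAt_V {s : ℕ} {c : ℍ → ℂ} (h : Good s c) {z₀ : ℂ} (hz₀ : 0 < z₀.im) :
    HasFDerivAt (V s c) (dV s c z₀) z₀ := by
  have hr : 0 < z₀.im / 2 := by linarith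
  rw [← integral_ff' h hz₀]
  have key : ∀ z ∈ Metric.ball z₀ (z₀.im / 2), ‖z - z₀‖ ≤ z₀.im / 2 := fun z hz => by
    rw [Metric.mem_ball, dist_eq_norm] at hz
    exact hz.le
  refine hasFDerivAt_integral_of_dominated_of_fderiv_le (F := fun z w => ff s c z w)
    (F' := fun z w => ff' s c z w)
    (bound := fun w => 4 * s * (z₀.im / 2)⁻¹ * (4 ^ s * ‖ff s c z₀ w‖)) (Metric.ball_mem_nhds z₀ hr)
    ?_ (h.int z₀ hz₀) (meas_ff' h.meas hz₀) ?_ ?_ ?_
  · filter_upwards [Metric.ball_mem_nhds z₀ hr] with z hz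
    have := im_near hz₀ (key z hz)
    exact meas_ff h.meas (by linarith)
  · refine Filter.Eventually.of_forall fun w z hz => ?_
    have h1 := im_near hz₀ (key z hz)
    have hz' : 0 < z.im := by linarith
    refine (norm_ff' s c hz' w).trans ?_
    have h2 := ff_near s c hz₀ (key z hz) w
    have h3 : z.im⁻¹ ≤ (z₀.im / 2)⁻¹ := inv_anti₀ hr h1
    refine mul_le_mul (mul_le_mul_of_nonneg_left h3 (by positivity)) h2 (norm_nonneg _)
      (by positivity)
  · exact ((h.int z₀ hz₀).norm.const_mul _).const_mul _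
  · refine Filter.Eventually.of_forall fun w z hz => ?_
    have h1 := im_near hz₀ (key z hz)
    exact hasFDerivAt_ff s c (by linarith) w

/-- the upper half plane is open -/
theorem isOpen_uhp : IsOpen {z : ℂ | 0 < z.im} := isOpen_lt continuous_const Complex.continuous_im

theorem contDiffOn_V (n : ℕ) : ∀ {s : ℕ} {c : ℍ → ℂ}, Good s c →
    ContDiffOn ℝ n (V s c) {z : ℂ | 0 < z.im} := by
  induction n with
  | zero =>
    intro s c h
    rw [Nat.cast_zero, contDiffOn_zero]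
    exact fun z hz => (hasFDerivAt_V h hz).continuousAt.continuousWithinAt
  | succ n ih =>
    intro s c h
    have h0 : ((n + 1 : ℕ) : WithTop ℕ∞) = (n : WithTop ℕ∞) + 1 := by push_cast; rfl
    rw [h0, contDiffOn_succ_iff_fderiv_of_isOpen isOpen_uhp]
    refine ⟨fun z hz => (hasFDerivAt_V h hz).differentiableAt.differentiableWithinAt, ?_, ?_⟩
    · intro hn
      exact absurd hn (by simp)
    · have e : ∀ z ∈ {z : ℂ | 0 < z.im}, fderiv ℝ (V s c) z = dV s c z := fun z hz =>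
        (hasFDerivAt_V h hz).fderiv
      refine ContDiffOn.congr ?_ e
      have c1 := ih h.succ
      have c2 := ih h.xc
      have c3 := ih h.yc
      have r1 : ContDiffOn ℝ n (fun z : ℂ => (z.re : ℂ)) {z : ℂ | 0 < z.im} :=
        (ofRealCLM.contDiff.comp reCLM.contDiff).contDiffOn
      have r2 : ContDiffOn ℝ n (fun z : ℂ => (z.im : ℂ)) {z : ℂ | 0 < z.im} :=
        (ofRealCLM.contDiff.comp imCLM.contDiff).contDiffOn
      have g1 : ContDiffOn ℝ n (fun z : ℂ => -(2 * (s : ℂ)) *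
          ((z.re : ℂ) * V (s + 1) c z - V (s + 1) (xc c) z)) {z : ℂ | 0 < z.im} :=
        contDiffOn_const.mul ((r1.mul c1).sub c2)
      have g2 : ContDiffOn ℝ n (fun z : ℂ => -(2 * (s : ℂ)) *
          ((z.im : ℂ) * V (s + 1) c z + V (s + 1) (yc c) z)) {z : ℂ | 0 < z.im} :=
        contDiffOn_const.mul ((r2.mul c1).add c3)
      have l1 : ContDiffOn ℝ n (fun z : ℂ => (reCLM.smulRight (-(2 * (s : ℂ)) *
          ((z.re : ℂ) * V (s + 1) c z - V (s + 1) (xc c) z)) : ℂ →L[ℝ] ℂ)) {z : ℂ | 0 < z.im} :=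
        ((ContinuousLinearMap.smulRightL ℝ ℂ ℂ reCLM).contDiff).comp_contDiffOn g1
      have l2 : ContDiffOn ℝ n (fun z : ℂ => (imCLM.smulRight (-(2 * (s : ℂ)) *
          ((z.im : ℂ) * V (s + 1) c z + V (s + 1) (yc c) z)) : ℂ →L[ℝ] ℂ)) {z : ℂ | 0 < z.im} :=
        ((ContinuousLinearMap.smulRightL ℝ ℂ ℂ imCLM).contDiff).comp_contDiffOn g2
      exact l1.add l2

end Run7.h143.OM
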