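import Pool.Agent.Run7.h143.OM.D1

/-!
# Project OM, piece D: the Laplacian
-/

set_option autoImplicit false

open UpperHalfPlane hiding I
open MeasureTheory Complex Filter Topology

namespace Run7.h143.OM

noncomputable def Vx (s : ℕ) (c : ℍ → ℂ) (z : ℂ) : ℂ :=
  -(2 * s) * (z.re * V (s + 1) c z - V (s + 1) (xc c) z)

noncomputable def Vy (s : ℕ) (c : ℍ → ℂ) (z : ℂ) : ℂ :=
  -(2 * s) * (z.im * V (s + 1) c z + V (s + 1) (yc c) z)

theorem dV_one (s : ℕ) (c : ℍ → ℂ) (z : ℂ) : dV s c z 1 = Vx s c z := by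
  simp [dV, Vx]

theorem dV_I (s : ℕ) (c : ℍ → ℂ) (z : ℂ) : dV s c z I = Vy s c z := by
  simp [dV, Vy]

theorem line_x {f : ℂ → ℂ} {L : ℂ →L[ℝ] ℂ} {z : ℂ} {t : ℝ} (h : HasFDerivAt f L (z + t)) :
    HasDerivAt (fun t : ℝ => f (z + (t : ℂ))) (L 1) t := by
  have h1 : HasDerivAt (fun t : ℝ => z + (t : ℂ)) 1 t := (ofRealCLM.hasDerivAt (x := t)).const_add z
  exact h.comp_hasDerivAt t h1

theorem line_y {f : ℂ → ℂ} {L : ℂ →L[ℝ] ℂ} {z : ℂ} {t : ℝ} (h : HasFDerivAt f L (z + t * I)) :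
    HasDerivAt (fun t : ℝ => f (z + (t : ℂ) * I)) (L I) t := by
  have h1 : HasDerivAt (fun t : ℝ => z + (t : ℂ) * I) (1 * I) t :=
    ((ofRealCLM.hasDerivAt (x := t)).mul_const I).const_add z
  rw [one_mul] at h1
  exact h.comp_hasDerivAt t h1

theorem Vline_x {s : ℕ} {c : ℍ → ℂ} (h : Good s c) {z : ℂ} (hz : 0 < z.im) (t : ℝ) :
    HasDerivAt (fun t : ℝ => V s c (z + t)) (Vx s c (z + t)) t := by
  rw [← dV_one]
  exact line_x (hasFDerivAt_V h (by simpa using hz))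

theorem Vline_y {s : ℕ} {c : ℍ → ℂ} (h : Good s c) {z : ℂ} {t : ℝ} (hz : 0 < z.im + t) :
    HasDerivAt (fun t : ℝ => V s c (z + t * I)) (Vy s c (z + t * I)) t := by
  rw [← dV_I]
  exact line_y (hasFDerivAt_V h (by simpa using hz))

noncomputable def Vxx (s : ℕ) (c : ℍ → ℂ) (z : ℂ) : ℂ :=
  -(2 * s) * (V (s + 1) c z + z.re * Vx (s + 1) c z - Vx (s + 1) (xc c) z)

noncomputable def Vyy (s : ℕ) (c : ℍ → ℂ) (z : ℂ) : ℂ :=
  -(2 * s) * (V (s + 1) c z + z.im * Vy (s + 1) c z + Vy (s + 1) (yc c) z)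

theorem Vxline_x {s : ℕ} {c : ℍ → ℂ} (h : Good s c) {z : ℂ} (hz : 0 < z.im) (t : ℝ) :
    HasDerivAt (fun t : ℝ => Vx s c (z + t)) (Vxx s c (z + t)) t := by
  have h1 : HasDerivAt (fun t : ℝ => (((z + t).re : ℝ) : ℂ)) 1 t := by
    have : HasDerivAt (fun t : ℝ => ((z.re : ℂ)) + (t : ℂ)) 1 t :=
      (ofRealCLM.hasDerivAt (x := t)).const_add _
    refine this.congr_of_eventuallyEq (Filter.Eventually.of_forall fun t => ?_)
    simp
  have h2 := ((h1.mul (Vline_x h.succ hz t)).sub (Vline_x h.xc hz t)).const_mul (-(2 * (s : ℂ)))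
  refine h2.congr_deriv ?_
  unfold Vxx
  ring

theorem Vyline_y {s : ℕ} {c : ℍ → ℂ} (h : Good s c) {z : ℂ} {t : ℝ} (hz : 0 < z.im + t) :
    HasDerivAt (fun t : ℝ => Vy s c (z + t * I)) (Vyy s c (z + t * I)) t := by
  have h1 : HasDerivAt (fun t : ℝ => (((z + t * I).im : ℝ) : ℂ)) 1 t := by
    have : HasDerivAt (fun t : ℝ => ((z.im : ℂ)) + (t : ℂ)) 1 t :=
      (ofRealCLM.hasDerivAt (x := t)).const_add _
    refine this.congr_of_eventuallyEq (Filter.Eventually.of_forall fun t => ?_)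
    simp
  have h2 := ((h1.mul (Vline_y h.succ hz)).add (Vline_y h.yc hz)).const_mul (-(2 * (s : ℂ)))
  refine h2.congr_deriv ?_
  unfold Vyy
  ring

theorem sum_id {s : ℕ} {c : ℍ → ℂ} (h : Good s c) {z : ℂ} (hz : 0 < z.im) :
    z.re * (z.re * V (s + 2) c z - V (s + 2) (xc c) z) -
      (z.re * V (s + 2) (xc c) z - V (s + 2) (xc (xc c)) z) +
      z.im * (z.im * V (s + 2) c z + V (s + 2) (yc c) z) +
      (z.im * V (s + 2) (yc c) z + V (s + 2) (yc (yc c)) z) = V (s + 1) c z := by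
  have i0 := h.succ.succ.int z hz
  have i1 := h.xc.succ.int z hz
  have i2 := h.xc.xc.int z hz
  have i3 := h.yc.succ.int z hz
  have i4 := h.yc.yc.int z hz
  have e : ∀ w, ff (s + 1) c z w =
      (((z.re : ℂ) ^ 2 + (z.im : ℂ) ^ 2) * ff (s + 2) c z w + (-(2 * (z.re : ℂ))) * ff (s + 2) (xc c) z w) +
      (ff (s + 2) (xc (xc c)) z w + ((2 * (z.im : ℂ)) * ff (s + 2) (yc c) z w +
        ff (s + 2) (yc (yc c)) z w)) := by
    intro w
    have hn := (nn_pos hz w).ne'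
    have h1 : (nn z w)⁻¹ ^ (s + 1) = nn z w * (nn z w)⁻¹ ^ (s + 2) := by
      rw [pow_succ (nn z w)⁻¹ (s + 1)]
      field_simp
    simp only [ff, h1, xc, yc]
    simp only [nn]
    push_cast
    ring
  have hV : V (s + 1) c z = ∫ w, ff (s + 1) c z w := rfl
  rw [hV, integral_congr_ae (Filter.Eventually.of_forall e), integral_add, integral_add,
    integral_add, integral_add, integral_const_mul, integral_const_mul, integral_const_mul]
  · change _ = (((z.re : ℂ) ^ 2 + (z.im : ℂ) ^ 2) * V (s + 2) c z + (-(2 * (z.re : ℂ))) * V (s + 2) (xc c) z) +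
      (V (s + 2) (xc (xc c)) z + ((2 * (z.im : ℂ)) * V (s + 2) (yc c) z +
        V (s + 2) (yc (yc c)) z))
    ring
  · exact i3.const_mul _
  · exact i4
  · exact i2
  · exact (i3.const_mul _).add i4
  · exact i0.const_mul _
  · exact i1.const_mul _
  · exact (i0.const_mul _).add (i1.const_mul _)
  · exact i2.add ((i3.const_mul _).add i4)

theorem lapl_V {s : ℕ} {c : ℍ → ℂ} (h : Good s c) {z : ℂ} (hz : 0 < z.im) :
    Vxx s c z + Vyy s c z = 4 * s ^ 2 * V (s + 1) c z := by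
  have h1 := sum_id h hz
  unfold Vxx Vyy Vx Vy
  push_cast
  linear_combination (4 * (s : ℂ) * (s + 1)) * h1

/-- second derivatives of `y ^ s V` -/
theorem dx_U {s : ℕ} {c : ℍ → ℂ} (h : Good s c) {z : ℂ} (hz : 0 < z.im) :
    deriv (deriv (fun t : ℝ => (((z + t).im : ℝ) : ℂ) ^ s * V s c (z + t))) 0 =
      (z.im : ℂ) ^ s * Vxx s c z := by
  have e1 : (fun t : ℝ => (((z + t).im : ℝ) : ℂ) ^ s * V s c (z + t)) =
      fun t : ℝ => (z.im : ℂ) ^ s * V s c (z + t) := by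
    funext t
    simp
  have e2 : deriv (fun t : ℝ => (z.im : ℂ) ^ s * V s c (z + t)) =
      fun t : ℝ => (z.im : ℂ) ^ s * Vx s c (z + t) := by
    funext t
    exact ((Vline_x h hz t).const_mul _).deriv
  rw [e1, e2]
  have := ((Vxline_x h hz 0).const_mul ((z.im : ℂ) ^ s)).deriv
  rw [this]
  simp

theorem dy_U {s : ℕ} {c : ℍ → ℂ} (h : Good (s + 2) c) {z : ℂ} (hz : 0 < z.im) :
    deriv (deriv (fun t : ℝ => (((z + t * I).im : ℝ) : ℂ) ^ (s + 2) * V (s + 2) c (z + t * I))) 0 =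
      (s + 2) * (s + 1) * (z.im : ℂ) ^ s * V (s + 2) c z +
      2 * (s + 2) * (z.im : ℂ) ^ (s + 1) * Vy (s + 2) c z +
      (z.im : ℂ) ^ (s + 2) * Vyy (s + 2) c z := by
  have hp : ∀ (n : ℕ) (t : ℝ), HasDerivAt (fun t : ℝ => (((z + t * I).im : ℝ) : ℂ) ^ (n + 1))
      ((n + 1) * (((z + t * I).im : ℝ) : ℂ) ^ n) t := by
    intro n t
    have h1 : HasDerivAt (fun t : ℝ => (((z + t * I).im : ℝ) : ℂ)) 1 t := by
      have : HasDerivAt (fun t : ℝ => ((z.im : ℂ)) + (t : ℂ)) 1 t :=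
        (ofRealCLM.hasDerivAt (x := t)).const_add _
      refine this.congr_of_eventuallyEq (Filter.Eventually.of_forall fun t => ?_)
      simp
    refine (h1.pow (n + 1)).congr_deriv ?_
    simp
  have hn : ∀ᶠ t : ℝ in 𝓝 0, 0 < z.im + t := by
    have : Continuous fun t : ℝ => z.im + t := by fun_prop
    exact (this.tendsto' 0 (z.im) (by simp)).eventually_const_lt hz
  have e2 : deriv (fun t : ℝ => (((z + t * I).im : ℝ) : ℂ) ^ (s + 2) * V (s + 2) c (z + t * I)) =ᶠ[𝓝 0]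
      fun t : ℝ => (s + 2) * (((z + t * I).im : ℝ) : ℂ) ^ (s + 1) * V (s + 2) c (z + t * I) +
        (((z + t * I).im : ℝ) : ℂ) ^ (s + 2) * Vy (s + 2) c (z + t * I) := by
    filter_upwards [hn] with t ht
    have h1 := (hp (s + 1) t).mul (Vline_y h ht)
    refine (HasDerivAt.deriv h1).trans ?_
    push_cast
    ring
  rw [e2.deriv_eq]
  have h0 : 0 < z.im + (0 : ℝ) := by simpa using hz
  have a1 := (((hp s 0).const_mul ((s : ℂ) + 2)).mul (Vline_y h h0)).add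
    ((hp (s + 1) 0).mul (Vyline_y h h0))
  refine (HasDerivAt.deriv a1).trans ?_
  simp
  ring

end Run7.h143.OM
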